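import Pool.Agent.Helper69.BQ.St.C

/-!
# Project BQ, pieces C3 and C4: the structure theorem for the norms (`MP_282bb6_nt`)
-/

namespace Pool.Agent.Helper39.BQ

open Module NumberField Pool.Agent.Helper25.Biq Pool.Agent.Helper69.BQ

/-- A prime dividing a factor of a squarefree number does not divide the complementary factor. -/
lemma not_dvd_of_sqf {p : ℕ} (hp : p.Prime) {n a b : ℤ} (h : Squarefree n) (hn : a * b = n)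
    (ha : (p : ℤ) ∣ a) : ¬ (p : ℤ) ∣ b := by
  intro hb
  have h1 : (p : ℤ) * (p : ℤ) ∣ n := hn ▸ mul_dvd_mul ha hb
  exact (Nat.prime_iff_prime_int.1 hp).not_isUnit (h _ h1)

/-- The square of a prime does not divide a factor of a squarefree number. -/
lemma sq_not_dvd_of_sqf {p : ℕ} (hp : p.Prime) {n a : ℤ} (h : Squarefree n) (hn : a ∣ n) :
    ¬ (p : ℤ) ^ 2 ∣ a := by
  intro hb
  have h1 : (p : ℤ) * (p : ℤ) ∣ n := by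
    rw [← sq]
    exact hb.trans hn
  exact (Nat.prime_iff_prime_int.1 hp).not_isUnit (h _ h1)

variable {K : Type} [Field K] [NumberField K] [IsGalois ℚ K] {g12 g13 g23 : ℤ}

/-- C3. The structure theorem for the norms (from C1, C2, `sel_of_norm`, `supp_Sel`, `leg_core`;
the second and third subfield via `Dat.rot`, `Dat.swap`). -/
theorem norms_elt (D : Dat K g12 g13 g23) (hA : Arith g12 g13 g23) {a : 𝓞 K}
    {I : Ideal (𝓞 K)} (ha : a ≠ 0) (hI : I ^ 2 = Ideal.span {a}) :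
    ∃ c1 c2 c3 : ℚ, Trip g12 g13 g23 c1 c2 c3 ∧
      sc (algebraMap (𝓞 K) K a * D.σ (algebraMap (𝓞 K) K a)) = sc (algebraMap ℚ K c1) ∧
      sc (algebraMap (𝓞 K) K a * D.τ (algebraMap (𝓞 K) K a)) = sc (algebraMap ℚ K c2) := by
  have hA0 : algebraMap (𝓞 K) K a ≠ 0 := alg_ne_zero ha
  obtain ⟨n, hn, hN⟩ := norm_pos D hA ha hI
  obtain ⟨c1, c2, c3, γ1, γ2, γ3, g1, g2, g3, hc1, hc2, hc3, hγ1, hγ2, hγ3, hg1, hg2, hg3,
    hs1, hs2, hs3, e1, e2, e3, n1, n2, n3, hprod, ⟨q1, hq1, hk1⟩, ⟨q2, hq2, hk2⟩,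
    ⟨q3, hq3, hk3⟩⟩ := split D hA hA0 hn hN
  have S1 : sc (algebraMap ℚ (fx D.σ) c1) ∈ Sel (fx D.σ) := sel_of_norm D ha hI hc1 hγ1 hs1 e1
  have S2 : sc (algebraMap ℚ (fx D.swap.σ) c2) ∈ Sel (fx D.swap.σ) :=
    sel_of_norm D.swap ha hI hc2 hγ2 hs2 e2
  have S3 : sc (algebraMap ℚ (fx D.rot.rot.σ) c3) ∈ Sel (fx D.rot.rot.σ) :=
    sel_of_norm D.rot.rot ha hI hc3 hγ3 hs3 e3
  have V1 : ∀ p : ℕ, p.Prime → p ≠ 2 → ¬ (p : ℤ) ∣ g12 * g13 → vv p c1 = 0 :=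
    fun p hp hp2 hd => supp_Sel D hA hc1 S1 hp hp2 hd
  have V2 : ∀ p : ℕ, p.Prime → p ≠ 2 → ¬ (p : ℤ) ∣ g12 * g23 → vv p c2 = 0 :=
    fun p hp hp2 hd => supp_Sel D.swap hA.swap hc2 S2 hp hp2 hd
  have V3 : ∀ p : ℕ, p.Prime → p ≠ 2 → ¬ (p : ℤ) ∣ g13 * g23 → vv p c3 = 0 :=
    fun p hp hp2 hd => supp_Sel D.rot.rot hA.rot.rot hc3 S3 hp hp2 hd
  have hsq := hA.sqf
  have d12 : g12 * g13 ∣ g12 * g13 * g23 := Dvd.intro _ rfl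
  have d13 : g12 * g23 ∣ g12 * g13 * g23 := ⟨g13, by ring⟩
  have d23 : g13 * g23 ∣ g12 * g13 * g23 := ⟨g12, by ring⟩
  refine ⟨c1, c2, c3, ?_, ?_, ?_⟩
  · refine ⟨hc1, hc2, hc3, hprod, V1, V2, V3, ?_, ?_, ?_⟩
    · intro p hp hp2 hd
      have h3 : ¬ (p : ℤ) ∣ g13 * g23 := not_dvd_of_sqf hp hsq (by ring) hd
      exact leg_core hp hp2 (hd.mul_right g13) (sq_not_dvd_of_sqf hp hsq d12)
        (hd.mul_right g23) (sq_not_dvd_of_sqf hp hsq d13) h3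
        ⟨g12, hA.pos12.ne', by ring⟩ hg1 hg2 hg3 n1 n2 n3 ⟨q1, hq1, hk1⟩ ⟨q3, hq3, hk3⟩
        (V3 p hp hp2 h3)
    · intro p hp hp2 hd
      have h3 : ¬ (p : ℤ) ∣ g12 * g23 := not_dvd_of_sqf hp hsq (by ring) hd
      exact leg_core hp hp2 (hd.mul_left g12) (sq_not_dvd_of_sqf hp hsq d12)
        (hd.mul_right g23) (sq_not_dvd_of_sqf hp hsq d23) h3
        ⟨g13, hA.pos13.ne', by ring⟩ hg1 hg3 hg2 n1 n3 n2
        ⟨q1, hq1, by rw [hk1]; ring⟩ ⟨q2, hq2, hk2⟩ (V2 p hp hp2 h3)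
    · intro p hp hp2 hd
      have h3 : ¬ (p : ℤ) ∣ g12 * g13 := not_dvd_of_sqf hp hsq (by ring) hd
      exact leg_core hp hp2 (hd.mul_left g12) (sq_not_dvd_of_sqf hp hsq d13)
        (hd.mul_left g13) (sq_not_dvd_of_sqf hp hsq d23) h3
        ⟨g23, hA.pos23.ne', by ring⟩ hg2 hg3 hg1 n2 n3 n1
        ⟨q2, hq2, by rw [hk2]; ring⟩ ⟨q1, hq1, hk1⟩ (V1 p hp hp2 h3)
  · rw [e1]
    have h1 : algebraMap ℚ K c1 ≠ 0 := (map_ne_zero _).2 hc1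
    exact (sc_eq_iff (mul_ne_zero h1 (pow_ne_zero 2 hγ1)) h1).2 ⟨γ1, hγ1, rfl⟩
  · rw [e2]
    have h1 : algebraMap ℚ K c2 ≠ 0 := (map_ne_zero _).2 hc2
    exact (sc_eq_iff (mul_ne_zero h1 (pow_ne_zero 2 hγ2)) h1).2 ⟨γ2, hγ2, rfl⟩

/-- C4 (from C3, `exists_rep`, `toQ_eq`, `toQ_act`). -/
theorem norms_TT (D : Dat K g12 g13 g23) (hA : Arith g12 g13 g23) (t : TT K) :
    ∃ c1 c2 c3 : ℚ, Trip g12 g13 g23 c1 c2 c3 ∧
      toQ (t + act D.σ t) = (UCl K).mkQ (sc (algebraMap ℚ K c1)) ∧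
      toQ (t + act D.τ t) = (UCl K).mkQ (sc (algebraMap ℚ K c2)) := by
  obtain ⟨I, a, ha, hI, hx⟩ := exists_rep t
  obtain ⟨c1, c2, c3, hT, h1, h2⟩ := norms_elt D hA ha hI
  have hA0 : algebraMap (𝓞 K) K a ≠ 0 := alg_ne_zero ha
  refine ⟨c1, c2, c3, hT, ?_, ?_⟩
  · rw [map_add, toQ_eq ha hI hx, toQ_act ha hI hx, ← map_add,
      ← sc_mul hA0 ((map_ne_zero_iff _ D.σ.injective).2 hA0), h1]
  · rw [map_add, toQ_eq ha hI hx, toQ_act ha hI hx, ← map_add,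
      ← sc_mul hA0 ((map_ne_zero_iff _ D.τ.injective).2 hA0), h2]

end Pool.Agent.Helper39.BQ
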